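import Pool.Agent.Run7.h710.Rep

set_option autoImplicit false

namespace Run7.h710

/-- `D` is a division ring of left fractions of the skew Laurent polynomial ring
`A[t, t⁻¹; σ]`. -/
structure SkewLaurentFractions (k : Type*) {A : Type*} [Field k] [CommRing A] [Algebra k A]
    (σ : A ≃ₐ[k] A) (D : Type*) [DivisionRing D] [Algebra k D] where
  /-- the embedding of the coefficients -/
  ι : A →ₐ[k] D
  /-- the variable -/
  t : D
  t_ne_zero : t ≠ 0
  /-- the commutation rule -/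
  comm : ∀ a, t * ι a = ι (σ a) * t
  /-- the powers of the variable are linearly independent over the coefficients -/
  free : ∀ c : ℤ →₀ A, (c.sum fun i a => ι a * t ^ i) = 0 → c = 0
  /-- every element is a left fraction -/
  frac : ∀ x : D, ∃ s b : ℤ →₀ A, s ≠ 0 ∧
    (s.sum fun i a => ι a * t ^ i) * x = b.sum fun i a => ι a * t ^ i

section

variable {k A K D : Type*} [Field k] [CommRing A] [Algebra k A] [Field K] [Algebra k K]
  {σ : A ≃ₐ[k] A} [DivisionRing D] [Algebra k D] (E : SkewLaurentFractions k σ D)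

namespace SkewLaurentFractions

/-- The variable as a unit. -/
noncomputable def u : Dˣ := Units.mk0 E.t E.t_ne_zero

lemma ev_eq (c : ℤ →₀ A) : (c.sum fun i a => E.ι a * E.t ^ i) = ev E.ι E.u c := by
  rw [ev]
  refine Finsupp.sum_congr fun i _ => ?_
  rw [Units.val_zpow_eq_zpow_val]
  rfl

lemma comm' (a : A) : (E.u : D) * E.ι a = E.ι (σ a) * E.u := E.comm a

lemma ev_inj {c c' : ℤ →₀ A} (h : ev E.ι E.u c = ev E.ι E.u c') : c = c' := by
  have h1 : ev E.ι E.u (c - c') = 0 := by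
    change evHom E.ι E.u (c - c') = 0
    rw [map_sub]
    exact sub_eq_zero.2 h
  rw [← ev_eq] at h1
  exact sub_eq_zero.1 (E.free _ h1)

lemma ev_ne {c : ℤ →₀ A} (h : c ≠ 0) : ev E.ι E.u c ≠ 0 := by
  intro h0
  apply h
  apply E.ev_inj
  rw [h0, ev_zero]

lemma frac' (x : D) : ∃ s b : ℤ →₀ A, s ≠ 0 ∧ ev E.ι E.u s * x = ev E.ι E.u b := by
  obtain ⟨s, b, hs, h⟩ := E.frac x
  exact ⟨s, b, hs, by rwa [ev_eq, ev_eq] at h⟩

include E in
lemma conv_ne {c c' : ℤ →₀ A} (h : c ≠ 0) (h' : c' ≠ 0) : conv σ c c' ≠ 0 := by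
  intro h0
  have := ev_conv E.comm' c c'
  rw [h0, ev_zero] at this
  exact mul_ne_zero (E.ev_ne h) (E.ev_ne h') this.symm

include E in
/-- The left Ore condition. -/
lemma ore (c : ℤ →₀ A) {c' : ℤ →₀ A} (h' : c' ≠ 0) :
    ∃ s v : ℤ →₀ A, s ≠ 0 ∧ conv σ s c = conv σ v c' := by
  obtain ⟨s, v, hs, h⟩ := E.frac' (ev E.ι E.u c * (ev E.ι E.u c')⁻¹)
  refine ⟨s, v, hs, E.ev_inj ?_⟩
  rw [ev_conv E.comm', ev_conv E.comm', ← h, mul_assoc, mul_assoc,
    inv_mul_cancel₀ (E.ev_ne h'), mul_one]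

end SkewLaurentFractions

variable (K) in
/-- A property holds for most of the representations. -/
def Most (σ : A ≃ₐ[k] A) (P : Rep k σ K → Prop) : Prop :=
  ∃ g : ℤ →₀ A, g ≠ 0 ∧ ∀ r : Rep k σ K, IsUnit (ev r.ρ r.τ g) → P r

lemma Most.and (E : SkewLaurentFractions k σ D) {P P' : Rep k σ K → Prop} (h : Most K σ P)
    (h' : Most K σ P') : Most K σ fun r => P r ∧ P' r := by
  obtain ⟨g, hg, h⟩ := h
  obtain ⟨g', hg', h'⟩ := h'
  refine ⟨conv σ g g', E.conv_ne hg hg', fun r hr => ?_⟩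
  rw [ev_conv r.comm, Matrix.isUnit_iff_isUnit_det, Matrix.det_mul] at hr
  refine ⟨h r ?_, h' r ?_⟩
  · rw [Matrix.isUnit_iff_isUnit_det]
    exact isUnit_of_mul_isUnit_left hr
  · rw [Matrix.isUnit_iff_isUnit_det]
    exact isUnit_of_mul_isUnit_right hr

lemma Most.mono {P P' : Rep k σ K → Prop} (h : Most K σ P) (hPP' : ∀ r, P r → P' r) :
    Most K σ P' := by
  obtain ⟨g, hg, h⟩ := h
  exact ⟨g, hg, fun r hr => hPP' r (h r hr)⟩

lemma Most.all (E : SkewLaurentFractions k σ D) {P : Rep k σ K → Prop} (h : ∀ r, P r) :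
    Most K σ P := by
  refine ⟨Finsupp.single 0 1, ?_, fun r _ => h r⟩
  intro h0
  have h1 : ev E.ι E.u (Finsupp.single 0 1) = 0 := by rw [h0, ev_zero]
  rw [ev_single] at h1
  simp at h1

lemma Most.forall_finset (E : SkewLaurentFractions k σ D) {β : Type*} (T : Finset β)
    {P : β → Rep k σ K → Prop} (h : ∀ b ∈ T, Most K σ (P b)) :
    Most K σ fun r => ∀ b ∈ T, P b r := by
  classical
  induction T using Finset.induction_on with
  | empty => exact Most.all E (by simp)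
  | insert a T _ ih =>
    refine ((h a (Finset.mem_insert_self a T)).and E
      (ih fun b hb => h b (Finset.mem_insert_of_mem hb))).mono ?_
    rintro r ⟨h1, h2⟩ b hb
    rcases Finset.mem_insert.1 hb with rfl | hb
    · exact h1
    · exact h2 b hb

variable (K) in
/-- The algebra of the elements of `D` together with their values in the representations. -/
def approx : Subalgebra k (D × ∀ r : Rep k σ K, Matrix (Fin (r.n + 1)) (Fin (r.n + 1)) K) where
  carrier := {x | ∃ a b : ℤ →₀ A, a ≠ 0 ∧ ev E.ι E.u a * x.1 = ev E.ι E.u b ∧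
    Most K σ fun r => ev r.ρ r.τ a * x.2 r = ev r.ρ r.τ b}
  mul_mem' := by
    rintro ⟨x, u⟩ ⟨x', u'⟩ ⟨a, b, ha, h1, h2⟩ ⟨a', b', ha', h1', h2'⟩
    obtain ⟨s, v, hs, hsv⟩ := E.ore b ha'
    refine ⟨conv σ s a, conv σ v b', E.conv_ne hs ha, ?_, (h2.and E h2').mono ?_⟩
    · have e := congrArg (ev E.ι E.u) hsv
      rw [ev_conv E.comm', ev_conv E.comm'] at e
      simp only [Prod.fst_mul] at h1 h1' ⊢
      rw [ev_conv E.comm', ev_conv E.comm', mul_assoc, ← mul_assoc (ev E.ι E.u a), h1,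
        ← mul_assoc, e, mul_assoc, h1']
    · rintro r ⟨h2, h2'⟩
      have e := congrArg (ev r.ρ r.τ) hsv
      rw [ev_conv r.comm, ev_conv r.comm] at e
      simp only [Prod.snd_mul, Pi.mul_apply] at h2 h2' ⊢
      rw [ev_conv r.comm, ev_conv r.comm, mul_assoc, ← mul_assoc (ev r.ρ r.τ a), h2,
        ← mul_assoc, e, mul_assoc, h2']
  add_mem' := by
    rintro ⟨x, u⟩ ⟨x', u'⟩ ⟨a, b, ha, h1, h2⟩ ⟨a', b', ha', h1', h2'⟩
    obtain ⟨s, v, hs, hsv⟩ := E.ore a ha'
    refine ⟨conv σ s a, conv σ s b + conv σ v b', E.conv_ne hs ha, ?_, (h2.and E h2').mono ?_⟩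
    · have e := congrArg (ev E.ι E.u) hsv
      simp only [Prod.fst_add] at h1 h1' ⊢
      rw [mul_add, ev_add, ev_conv E.comm' s b, ev_conv E.comm' v b', ← h1, ← h1', ← mul_assoc,
        ← mul_assoc, ← ev_conv E.comm', ← ev_conv E.comm', hsv]
    · rintro r ⟨h2, h2'⟩
      simp only [Prod.snd_add, Pi.add_apply] at h2 h2' ⊢
      rw [mul_add, ev_add, ev_conv r.comm s b, ev_conv r.comm v b', ← h2, ← h2', ← mul_assoc,
        ← mul_assoc, ← ev_conv r.comm, ← ev_conv r.comm, hsv]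
  algebraMap_mem' := by
    intro c
    have hne : (Finsupp.single 0 1 : ℤ →₀ A) ≠ 0 := by
      intro h0
      have h1 : ev E.ι E.u (Finsupp.single 0 1) = 0 := by rw [h0, ev_zero]
      rw [ev_single] at h1
      simp at h1
    refine ⟨Finsupp.single 0 1, Finsupp.single 0 (algebraMap k A c), hne, ?_, Most.all E ?_⟩
    · rw [ev_single, ev_single]
      simp
    · intro r
      rw [ev_single, ev_single]
      simp

lemma approx_zero {x : D × ∀ r : Rep k σ K, Matrix (Fin (r.n + 1)) (Fin (r.n + 1)) K}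
    (hx : x ∈ approx K E) (h : x.1 = 0) : Most K σ fun r => x.2 r = 0 := by
  obtain ⟨a, b, ha, h1, h2⟩ := hx
  have hb : b = 0 := by
    apply E.ev_inj
    rw [← h1, h, mul_zero, ev_zero]
  subst hb
  refine (h2.and E ⟨a, ha, fun r hr => hr⟩).mono ?_
  rintro r ⟨h3, h4⟩
  rw [ev_zero] at h3
  exact (h4.mul_right_eq_zero).1 h3

lemma approx_surj (x : D) : ∃ u, (x, u) ∈ approx K E := by
  obtain ⟨s, b, hs, h⟩ := E.frac' x
  refine ⟨fun r => Ring.inverse (ev r.ρ r.τ s) * ev r.ρ r.τ b, s, b, hs, h, s, hs, ?_⟩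
  intro r hr
  simp only
  rw [← mul_assoc, Ring.mul_inverse_cancel _ hr, one_mul]

/-- Finitely presented algebras with a homomorphism to the matrices over `D` have
representations. -/
theorem exists_hom (E : SkewLaurentFractions k σ D)
    (hrep : ∀ s : ℤ →₀ A, s ≠ 0 → ∃ r : Rep k σ K, IsUnit (ev r.ρ r.τ s))
    {m n : ℕ} {R : Type*} [Ring R] [Algebra k R] (f : FreeAlgebra k (Fin n) →ₐ[k] R)
    (S : Finset (FreeAlgebra k (Fin n))) (hfS : ∀ x ∈ S, f x = 0)
    (h : R →ₐ[k] Matrix (Fin m) (Fin m) D) :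
    ∃ (r : Rep k σ K) (g : FreeAlgebra k (Fin n) →ₐ[k]
      Matrix (Fin m) (Fin m) (Matrix (Fin (r.n + 1)) (Fin (r.n + 1)) K)),
      ∀ x ∈ S, g x = 0 := by
  classical
  choose u hu using approx_surj (K := K) E
  let gen : Fin n → Matrix (Fin m) (Fin m) (approx K E) := fun i =>
    Matrix.of fun a b => ⟨(h (f (FreeAlgebra.ι k i)) a b, u _), hu _⟩
  let g0 : FreeAlgebra k (Fin n) →ₐ[k] Matrix (Fin m) (Fin m) (approx K E) :=
    FreeAlgebra.lift k gen
  let π : approx K E →ₐ[k] D := (AlgHom.fst k D _).comp (approx K E).val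
  let ε : ∀ r : Rep k σ K, approx K E →ₐ[k] Matrix (Fin (r.n + 1)) (Fin (r.n + 1)) K := fun r =>
    ((Pi.evalAlgHom k (fun r : Rep k σ K => Matrix (Fin (r.n + 1)) (Fin (r.n + 1)) K) r).comp
      (AlgHom.snd k D _)).comp (approx K E).val
  have hπ : π.mapMatrix.comp g0 = h.comp f := by
    refine FreeAlgebra.hom_ext ?_
    funext i
    simp only [Function.comp_apply, AlgHom.comp_apply, g0, FreeAlgebra.lift_ι_apply]
    rfl
  have key : ∀ x ∈ S, Most K σ fun r => (ε r).mapMatrix (g0 x) = 0 := by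
    intro x hx
    have h0 : ∀ a b, π (g0 x a b) = 0 := by
      intro a b
      have h1 : (π.mapMatrix.comp g0) x = 0 := by
        rw [hπ, AlgHom.comp_apply, hfS x hx, map_zero]
      exact congrFun (congrFun h1 a) b
    have h1 : Most K σ fun r => ∀ ab ∈ (Finset.univ : Finset (Fin m × Fin m)),
        ε r (g0 x ab.1 ab.2) = 0 :=
      Most.forall_finset E _ fun ab _ => approx_zero E (g0 x ab.1 ab.2).2 (h0 ab.1 ab.2)
    refine h1.mono fun r hr => ?_
    ext a b : 1
    · exact hr (a, b) (Finset.mem_univ _)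
  obtain ⟨s, hs, hr⟩ := Most.forall_finset E S key
  obtain ⟨r, hru⟩ := hrep s hs
  exact ⟨r, (ε r).mapMatrix.comp g0, fun x hx => hr r hru x hx⟩

end

end Run7.h710
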