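import Mathlib

set_option autoImplicit false

namespace Run7.h710

open MvPolynomial

section Filtration

variable {k : Type*} [Field k] {d : ℕ}

/-- The polynomials of total degree smaller than `n`. -/
def F (k : Type*) [Field k] (d n : ℕ) : Submodule k (MvPolynomial (Fin d) k) where
  carrier := {a | ∀ m : Fin d →₀ ℕ, n ≤ m.degree → coeff m a = 0}
  zero_mem' := fun m _ => by simp
  add_mem' := fun {a b} ha hb m hm => by simp [ha m hm, hb m hm]
  smul_mem' := fun c a ha m hm => by simp [ha m hm]

lemma mem_F {n : ℕ} {a : MvPolynomial (Fin d) k} :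
    a ∈ F k d n ↔ ∀ m : Fin d →₀ ℕ, n ≤ m.degree → coeff m a = 0 := Iff.rfl

lemma F_mono {n n' : ℕ} (h : n ≤ n') {a : MvPolynomial (Fin d) k} (ha : a ∈ F k d n) :
    a ∈ F k d n' := fun m hm => ha m (h.trans hm)

lemma F_mul {n m : ℕ} {a b : MvPolynomial (Fin d) k} (ha : a ∈ F k d n) (hb : b ∈ F k d (m + 1)) :
    a * b ∈ F k d (n + m) := by
  intro μ hμ
  rw [coeff_mul]
  refine Finset.sum_eq_zero ?_
  rintro ⟨u, v⟩ huv
  rw [Finset.HasAntidiagonal.mem_antidiagonal] at huv
  have hd : u.degree + v.degree = μ.degree := by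
    rw [← huv]; simp
  by_cases hu : n ≤ u.degree
  · simp [ha u hu]
  · have : m + 1 ≤ v.degree := by omega
    simp [hb v this]

lemma F_zero {a : MvPolynomial (Fin d) k} (ha : a ∈ F k d 0) : a = 0 := by
  ext m
  simpa using ha m (Nat.zero_le _)

lemma mem_F_of_totalDegree {n : ℕ} {a : MvPolynomial (Fin d) k} (h : a.totalDegree < n) :
    a ∈ F k d n := by
  intro m hm
  by_contra hc
  have : m ∈ a.support := by simpa [mem_support_iff] using hc
  have h2 := le_totalDegree this
  have h3 : (m.sum fun _ e => e) = m.degree := rfl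
  omega

/-- Two polynomials of degree at most `n` whose difference has degree less than `n`. -/
def Good (n : ℕ) (u v : MvPolynomial (Fin d) k) : Prop :=
  u ∈ F k d (n + 1) ∧ v ∈ F k d (n + 1) ∧ u - v ∈ F k d n

lemma Good.mul {n m : ℕ} {u v u' v' : MvPolynomial (Fin d) k} (h : Good n u v) (h' : Good m u' v') :
    Good (n + m) (u * u') (v * v') := by
  obtain ⟨h1, h2, h3⟩ := h
  obtain ⟨h1', h2', h3'⟩ := h'
  refine ⟨?_, ?_, ?_⟩
  · have := F_mul h1 h1'
    rwa [show n + 1 + m = n + m + 1 by ring] at this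
  · have := F_mul h2 h2'
    rwa [show n + 1 + m = n + m + 1 by ring] at this
  · have e : u * u' - v * v' = (u - v) * u' + (u' - v') * v := by ring
    rw [e]
    refine add_mem (F_mul h3 h1') ?_
    have := F_mul h3' h2
    rwa [add_comm m n] at this

lemma Good.one : Good 0 (1 : MvPolynomial (Fin d) k) 1 := by
  refine ⟨?_, ?_, ?_⟩
  · apply mem_F_of_totalDegree; simp
  · apply mem_F_of_totalDegree; simp
  · simp

lemma Good.pow {n : ℕ} {u v : MvPolynomial (Fin d) k} (h : Good n u v) (c : ℕ) :
    Good (n * c) (u ^ c) (v ^ c) := by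
  induction c with
  | zero => simpa using Good.one
  | succ c ih => simpa [pow_succ, Nat.mul_succ] using ih.mul h

lemma Good.prod {ι : Type*} (s : Finset ι) (n : ι → ℕ) (u v : ι → MvPolynomial (Fin d) k)
    (h : ∀ i ∈ s, Good (n i) (u i) (v i)) : Good (∑ i ∈ s, n i) (∏ i ∈ s, u i) (∏ i ∈ s, v i) := by
  classical
  induction s using Finset.induction_on with
  | empty => simpa using Good.one
  | insert a s ha ih =>
    rw [Finset.sum_insert ha, Finset.prod_insert ha, Finset.prod_insert ha]
    exact (h a (Finset.mem_insert_self a s)).mul (ih fun i hi => h i (Finset.mem_insert_of_mem hi))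

lemma Good.X (i : Fin d) : Good 1 (X i : MvPolynomial (Fin d) k) (X i) := by
  refine ⟨?_, ?_, ?_⟩
  · apply mem_F_of_totalDegree; simp
  · apply mem_F_of_totalDegree; simp
  · simp

end Filtration

section Normal

variable {k : Type*} [Field k] {d : ℕ} (Q : ℕ) (s : Fin d → MvPolynomial (Fin d) k)

/-- The image of the monomial `m`. -/
noncomputable def G (m : Fin d →₀ ℕ) : MvPolynomial (Fin d) k :=
  ∏ i, (X i ^ (m i % Q) * (X i ^ Q - s i) ^ (m i / Q))

/-- The linear map which replaces the powers of `X i ^ Q` by those of `X i ^ Q - s i`. -/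
noncomputable def L : MvPolynomial (Fin d) k →ₗ[k] MvPolynomial (Fin d) k :=
  (basisMonomials (Fin d) k).constr k (G Q s)

lemma L_monomial (m : Fin d →₀ ℕ) : L Q s (monomial m 1) = G Q s m := by
  have := (basisMonomials (Fin d) k).constr_basis k (G Q s) m
  simpa [L] using this

variable {Q s}

lemma G_good (hs : ∀ i, s i ∈ F k d Q) (m : Fin d →₀ ℕ) :
    Good m.degree (G Q s m) (monomial m 1) := by
  have h1 : ∀ i ∈ (Finset.univ : Finset (Fin d)),
      Good (1 * (m i % Q) + (1 * Q) * (m i / Q))
        (X i ^ (m i % Q) * (X i ^ Q - s i) ^ (m i / Q))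
        (X i ^ (m i % Q) * (X i ^ Q) ^ (m i / Q)) := by
    intro i _
    refine ((Good.X i).pow _).mul (Good.pow ?_ _)
    have h2 := (Good.X (k := k) i).pow Q
    refine ⟨?_, h2.2.1, ?_⟩
    · refine sub_mem h2.1 (F_mono (by omega) (hs i))
    · simpa using hs i
  have h2 := Good.prod Finset.univ _ _ _ h1
  have e1 : ∑ i : Fin d, (1 * (m i % Q) + (1 * Q) * (m i / Q)) = m.degree := by
    rw [Finsupp.degree_eq_sum]
    refine Finset.sum_congr rfl fun i _ => ?_
    rw [one_mul, one_mul]
    exact Nat.mod_add_div _ _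
  have e2 : ∏ i : Fin d, (X i ^ (m i % Q) * ((X i : MvPolynomial (Fin d) k) ^ Q) ^ (m i / Q))
      = monomial m 1 := by
    rw [monomial_eq, C_1, one_mul, Finsupp.prod_fintype _ _ (by simp)]
    refine Finset.prod_congr rfl fun i _ => ?_
    rw [← pow_mul, ← pow_add, Nat.mod_add_div]
  rw [e1, e2] at h2
  exact h2

lemma L_sub (hs : ∀ i, s i ∈ F k d Q) {n : ℕ} {a : MvPolynomial (Fin d) k}
    (ha : a ∈ F k d (n + 1)) : L Q s a - a ∈ F k d n := by
  have e : L Q s a - a = ∑ m ∈ a.support, coeff m a • (G Q s m - monomial m 1) := by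
    conv_lhs => rw [a.as_sum]
    rw [map_sum, ← Finset.sum_sub_distrib]
    refine Finset.sum_congr rfl fun m _ => ?_
    have : monomial m (coeff m a) = coeff m a • monomial m (1 : k) := by simp [smul_monomial]
    rw [this, map_smul, L_monomial, smul_sub]
  rw [e]
  refine sum_mem fun m hm => Submodule.smul_mem _ _ ?_
  refine F_mono ?_ (G_good hs m).2.2
  by_contra hc
  have := ha m (by omega)
  rw [mem_support_iff] at hm
  exact hm this

lemma L_surj (hs : ∀ i, s i ∈ F k d Q) (a : MvPolynomial (Fin d) k) : ∃ b, L Q s b = a := by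
  have key : ∀ n : ℕ, ∀ a ∈ F k d n, ∃ b, L Q s b = a := by
    intro n
    induction n with
    | zero => intro a ha; exact ⟨0, by rw [F_zero ha]; simp⟩
    | succ n ih =>
      intro a ha
      obtain ⟨b, hb⟩ := ih _ (L_sub hs ha)
      exact ⟨a - b, by rw [map_sub, hb]; ring⟩
  exact key (a.totalDegree + 1) a (mem_F_of_totalDegree (Nat.lt_succ_self _))

lemma L_inj (hs : ∀ i, s i ∈ F k d Q) {a : MvPolynomial (Fin d) k} (h : L Q s a = 0) : a = 0 := by
  have key : ∀ n : ℕ, ∀ a ∈ F k d n, L Q s a = 0 → a = 0 := by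
    intro n
    induction n with
    | zero => intro a ha _; exact F_zero ha
    | succ n ih =>
      intro a ha h
      refine ih a ?_ h
      have := L_sub hs ha
      rw [h, zero_sub] at this
      exact (Submodule.neg_mem_iff _).1 this
  exact key (a.totalDegree + 1) a (mem_F_of_totalDegree (Nat.lt_succ_self _)) h

lemma L_mul (hQ : 0 < Q) (i : Fin d) (a : MvPolynomial (Fin d) k) :
    L Q s (X i ^ Q * a) = (X i ^ Q - s i) * L Q s a := by
  have key : (L Q s) ∘ₗ (LinearMap.mulLeft k (X i ^ Q)) =
      (LinearMap.mulLeft k (X i ^ Q - s i)) ∘ₗ (L Q s) := by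
    refine (basisMonomials (Fin d) k).ext fun m => ?_
    simp only [coe_basisMonomials, LinearMap.comp_apply, LinearMap.mulLeft_apply, L_monomial]
    have e : (X i : MvPolynomial (Fin d) k) ^ Q * monomial m 1 =
        monomial (Finsupp.single i Q + m) 1 := by
      rw [X_pow_eq_monomial, monomial_mul, one_mul]
    rw [e, L_monomial, G, G, ← Finset.mul_prod_erase _ _ (Finset.mem_univ i),
      ← Finset.mul_prod_erase (Finset.univ : Finset (Fin d))
        (fun j => X j ^ (m j % Q) * (X j ^ Q - s j) ^ (m j / Q)) (Finset.mem_univ i)]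
    have e2 : ∏ j ∈ Finset.univ.erase i, (X j ^ ((Finsupp.single i Q + m) j % Q) *
          ((X j : MvPolynomial (Fin d) k) ^ Q - s j) ^ ((Finsupp.single i Q + m) j / Q)) =
        ∏ j ∈ Finset.univ.erase i, (X j ^ (m j % Q) * (X j ^ Q - s j) ^ (m j / Q)) := by
      refine Finset.prod_congr rfl fun j hj => ?_
      have : j ≠ i := Finset.ne_of_mem_erase hj
      simp [Finsupp.single_eq_of_ne this]
    rw [e2]
    have e3 : (Finsupp.single i Q + m) i = Q + m i := by simp
    rw [e3, Nat.add_mod_left, Nat.add_div_left _ hQ, pow_succ]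
    ring
  exact LinearMap.congr_fun key a

lemma L_small {b : MvPolynomial (Fin d) k} (hb : b ∈ F k d Q) : L Q s b = b := by
  conv_lhs => rw [b.as_sum]
  conv_rhs => rw [b.as_sum]
  rw [map_sum]
  refine Finset.sum_congr rfl fun m hm => ?_
  have : monomial m (coeff m b) = coeff m b • monomial m (1 : k) := by simp [smul_monomial]
  rw [this, map_smul, L_monomial]
  congr 1
  have hlt : m.degree < Q := by
    by_contra hc
    rw [mem_support_iff] at hm
    exact hm (hb m (by omega))
  have hmi : ∀ i, m i < Q := fun i => (Finsupp.le_degree i m).trans_lt hlt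
  rw [G, monomial_eq, C_1, one_mul, Finsupp.prod_fintype _ _ (by simp)]
  refine Finset.prod_congr rfl fun i _ => ?_
  rw [Nat.mod_eq_of_lt (hmi i), Nat.div_eq_of_lt (hmi i), pow_zero, mul_one]

/-- **The normal form.** A nonzero polynomial of total degree less than `Q` does not lie in the
ideal generated by the polynomials `X i ^ Q - s i`, if all the `s i` have total degree less than
`Q`. -/
theorem not_mem_span (hQ : 0 < Q) (hs : ∀ i, s i ∈ F k d Q) {b : MvPolynomial (Fin d) k}
    (hb : b ∈ F k d Q) (hb0 : b ≠ 0) :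
    b ∉ Ideal.span (Set.range fun i => (X i : MvPolynomial (Fin d) k) ^ Q - s i) := by
  intro hmem
  rw [Ideal.mem_span_range_iff_exists_fun] at hmem
  obtain ⟨c, hc⟩ := hmem
  choose a ha using fun i => L_surj hs (c i)
  have h1 : L Q s (∑ i, X i ^ Q * a i) = b := by
    rw [map_sum, ← hc]
    refine Finset.sum_congr rfl fun i _ => ?_
    rw [L_mul hQ, ha, mul_comm]
  have h2 : L Q s (∑ i, X i ^ Q * a i - b) = 0 := by
    rw [map_sub, h1, L_small hb, sub_self]
  have h3 := sub_eq_zero.1 (L_inj hs h2)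
  obtain ⟨m, hm⟩ := MvPolynomial.exists_coeff_ne_zero hb0
  have hlt : m.degree < Q := by
    by_contra hc
    exact hm (hb m (by omega))
  have hmi : ∀ i, m i < Q := fun i => (Finsupp.le_degree i m).trans_lt hlt
  apply hm
  rw [← h3, coeff_sum]
  refine Finset.sum_eq_zero fun i _ => ?_
  rw [X_pow_eq_monomial, coeff_monomial_mul', if_neg]
  intro hle
  have := hle i
  simp at this
  have := hmi i
  omega

end Normal

end Run7.h710
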