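import Pool.Agent.Run7.h710.Approx

set_option autoImplicit false

namespace Run7.h710

open MvPolynomial

/-- Fields which are algebraic over the prime field: every element is fixed by a power of the
Frobenius map. -/
lemma frobFixed_of_isAlgebraic {p : ℕ} [hp : Fact p.Prime] (K : Type*) [Field K]
    [Algebra (ZMod p) K] [Algebra.IsAlgebraic (ZMod p) K] : FrobFixed p K := by
  intro x
  have hx : IsIntegral (ZMod p) x := Algebra.IsIntegral.isIntegral x
  let L := IntermediateField.adjoin (ZMod p) {x}
  have : FiniteDimensional (ZMod p) L := IntermediateField.adjoin.finiteDimensional hx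
  have hfin : Finite L := Module.finite_of_finite (ZMod p)
  letI : Fintype L := Fintype.ofFinite L
  have hcard : Fintype.card L = p ^ Module.finrank (ZMod p) L := by
    have := Module.card_eq_pow_finrank (K := ZMod p) (V := L)
    rwa [ZMod.card] at this
  refine ⟨Module.finrank (ZMod p) L, Module.finrank_pos, ?_⟩
  have h := FiniteField.pow_card (⟨x, IntermediateField.mem_adjoin_simple_self (ZMod p) x⟩ : L)
  rw [hcard] at h
  have := congrArg (algebraMap L K) h
  simpa using this

/-- The skew Laurent polynomial ring over a polynomial ring has enough finite dimensional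
representations. -/
lemma exists_rep {k : Type*} [Field k] {p : ℕ} [hp : Fact p.Prime] [CharP k p] {d : ℕ}
    (hk : FrobFixed p k) (K : Type*) [Field K] [IsAlgClosed K] [Algebra k K]
    (hK : FrobFixed p K) (σ : MvPolynomial (Fin d) k ≃ₐ[k] MvPolynomial (Fin d) k)
    (s : ℤ →₀ MvPolynomial (Fin d) k) (hs : s ≠ 0) :
    ∃ r : Rep k σ K, IsUnit (ev r.ρ r.τ s) := by
  have hne : s.support.Nonempty := Finsupp.support_nonempty_iff.2 hs
  obtain ⟨top, htop, hmax⟩ := s.support.exists_max_image id hne
  obtain ⟨χ, N, hN, hper, hnz⟩ := exists_spec hk K hK σ (Finsupp.mem_support_iff.1 htop)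
  obtain ⟨n, rfl⟩ : ∃ n, N = n + 1 := ⟨N - 1, by omega⟩
  have : Infinite K := IsAlgClosed.instInfinite
  exact exists_unit hper s top hmax hnz

/-- A finitely generated simple algebra with a homomorphism to a ring of matrices over an
algebraic extension field is finite dimensional. -/
lemma finite_of_hom {k K : Type*} [Field k] [Field K] [Algebra k K] [Algebra.IsAlgebraic k K]
    {m n l : ℕ} {R : Type*} [Ring R] [Algebra k R]
    (f : FreeAlgebra k (Fin n) →ₐ[k] R) (hf : Function.Surjective f)
    (g : FreeAlgebra k (Fin n) →ₐ[k] Matrix (Fin m) (Fin m) (Matrix (Fin l) (Fin l) K))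
    (hker : ∀ x, g x = 0 → f x = 0) : Module.Finite k R := by
  classical
  let T : Set K := Set.range fun z : Fin n × (Fin m × Fin m) × (Fin l × Fin l) =>
    g (FreeAlgebra.ι k z.1) z.2.1.1 z.2.1.2 z.2.2.1 z.2.2.2
  have hT : T.Finite := Set.finite_range _
  let E := IntermediateField.adjoin k T
  have hE : FiniteDimensional k E := by
    have := hT.to_subtype
    exact IntermediateField.finiteDimensional_adjoin fun x _ => Algebra.IsIntegral.isIntegral x
  let j : Matrix (Fin m) (Fin m) (Matrix (Fin l) (Fin l) E) →ₐ[k]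
      Matrix (Fin m) (Fin m) (Matrix (Fin l) (Fin l) K) := (E.val.mapMatrix).mapMatrix
  let w : FreeAlgebra k (Fin n) →ₐ[k] Matrix (Fin m) (Fin m) (Matrix (Fin l) (Fin l) E) :=
    FreeAlgebra.lift k fun i => Matrix.of fun a b => Matrix.of fun c e =>
      ⟨g (FreeAlgebra.ι k i) a b c e,
        IntermediateField.subset_adjoin k T ⟨(i, (a, b), (c, e)), rfl⟩⟩
  have hjw : j.comp w = g := by
    refine FreeAlgebra.hom_ext ?_
    funext i
    simp only [Function.comp_apply, AlgHom.comp_apply, w, FreeAlgebra.lift_ι_apply]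
    rfl
  -- the quotient by the kernel of `w` maps onto `R`
  have hker' : LinearMap.ker w.toLinearMap ≤ LinearMap.ker f.toLinearMap := by
    intro x hx
    rw [LinearMap.mem_ker] at hx ⊢
    refine hker x ?_
    rw [← hjw, AlgHom.comp_apply]
    have : w x = 0 := hx
    rw [this, map_zero]
  have h1 : Module.Finite k (FreeAlgebra k (Fin n) ⧸ LinearMap.ker w.toLinearMap) := by
    have h2 : Module.Finite k E := hE
    have h3 : Module.Finite k (Matrix (Fin l) (Fin l) E) := Module.Finite.matrix
    have h4 : Module.Finite k (Matrix (Fin m) (Fin m) (Matrix (Fin l) (Fin l) E)) :=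
      Module.Finite.matrix
    have e := w.toLinearMap.quotKerEquivRange
    have h5 : Module.Finite k (LinearMap.range w.toLinearMap) := inferInstance
    exact Module.Finite.equiv e.symm
  let q : (FreeAlgebra k (Fin n) ⧸ LinearMap.ker w.toLinearMap) →ₗ[k] R :=
    (LinearMap.ker w.toLinearMap).liftQ f.toLinearMap hker'
  refine Module.Finite.of_surjective q ?_
  intro y
  obtain ⟨x, rfl⟩ := hf y
  exact ⟨Submodule.Quotient.mk x, rfl⟩

/-- **Main theorem.** -/
theorem main (p : ℕ) [Fact p.Prime] (k : Type*) [Field k] [CharP k p]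
    [Algebra (ZMod p) k] [Algebra.IsAlgebraic (ZMod p) k] (d : ℕ)
    (σ : MvPolynomial (Fin d) k ≃ₐ[k] MvPolynomial (Fin d) k)
    (D : Type*) [DivisionRing D] [Algebra k D] (E : SkewLaurentFractions k σ D)
    (m : ℕ) (hm : 0 < m) (R : Type*) [Ring R] [Algebra k R] [IsSimpleRing R]
    (n : ℕ) (f : FreeAlgebra k (Fin n) →ₐ[k] R) (hf : Function.Surjective f)
    (S : Finset (FreeAlgebra k (Fin n)))
    (hS : ∀ x, f x = 0 ↔ x ∈ TwoSidedIdeal.span (S : Set (FreeAlgebra k (Fin n))))
    (h : R →ₐ[k] Matrix (Fin m) (Fin m) D) : Module.Finite k R := by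
  let K := AlgebraicClosure k
  have : Algebra.IsAlgebraic (ZMod p) K := Algebra.IsAlgebraic.trans (ZMod p) k K
  have hk : FrobFixed p k := frobFixed_of_isAlgebraic k
  have hK : FrobFixed p K := frobFixed_of_isAlgebraic K
  have hsub : ∀ x ∈ S, f x = 0 := fun x hx => (hS x).2 (TwoSidedIdeal.subset_span hx)
  obtain ⟨r, g, hg⟩ := exists_hom E (fun s hs => exists_rep hk K hK σ s hs) f S hsub h
  refine finite_of_hom f hf g ?_
  -- the kernel of `g` is the kernel of `f`
  have hle : TwoSidedIdeal.span (S : Set (FreeAlgebra k (Fin n))) ≤ TwoSidedIdeal.ker g := by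
    rw [TwoSidedIdeal.span_le]
    intro x hx
    exact (TwoSidedIdeal.mem_ker g).2 (hg x hx)
  intro x hx
  by_contra hfx
  -- the image of the kernel of `g` under `f` is an ideal
  have hsurj : Function.Surjective (f : FreeAlgebra k (Fin n) →+* R) := hf
  let I : TwoSidedIdeal R := TwoSidedIdeal.mk' (f '' {x | g x = 0})
    ⟨0, map_zero g, map_zero f⟩
    (by
      rintro _ _ ⟨a, ha, rfl⟩ ⟨b, hb, rfl⟩
      simp only [Set.mem_ofPred_eq] at ha hb
      exact ⟨a + b, by simp [ha, hb], map_add f a b⟩)
    (by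
      rintro _ ⟨a, ha, rfl⟩
      simp only [Set.mem_ofPred_eq] at ha
      exact ⟨-a, by simp [ha], map_neg f a⟩)
    (by
      rintro y _ ⟨a, ha, rfl⟩
      obtain ⟨z, rfl⟩ := hf y
      simp only [Set.mem_ofPred_eq] at ha
      exact ⟨z * a, by simp [ha], map_mul f z a⟩)
    (by
      rintro _ y ⟨a, ha, rfl⟩
      obtain ⟨z, rfl⟩ := hf y
      simp only [Set.mem_ofPred_eq] at ha
      exact ⟨a * z, by simp [ha], map_mul f a z⟩)
  have hI : ∀ y, y ∈ I ↔ y ∈ f '' {x | g x = 0} := by
    intro y
    exact TwoSidedIdeal.mem_mk' _ _ _ _ _ _ _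
  have hI1 : (1 : R) ∈ I := by
    rcases eq_bot_or_eq_top I with hbot | htop
    · exfalso
      apply hfx
      have : f x ∈ I := (hI _).2 ⟨x, hx, rfl⟩
      rw [hbot] at this
      simpa using this
    · rw [htop]
      trivial
  obtain ⟨y, hy, hy1⟩ := (hI 1).1 hI1
  have h2 : f (y - 1) = 0 := by rw [map_sub, hy1, map_one, sub_self]
  have h3 : g (y - 1) = 0 := (TwoSidedIdeal.mem_ker g).1 (hle ((hS _).1 h2))
  have hy' : g y = 0 := hy
  rw [map_sub, hy', map_one, zero_sub, neg_eq_zero] at h3
  have : NeZero m := ⟨hm.ne'⟩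
  have h4 := congrFun (congrFun h3 0) 0
  simp at h4

end Run7.h710
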