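import Pool.Agent.Run7.h710.Spec

set_option autoImplicit false

namespace Run7.h710

section Skew

variable {k A S : Type*} [Field k] [CommRing A] [Algebra k A] [Ring S] [Algebra k S]
  (σ : A ≃ₐ[k] A)

/-- The value of a skew Laurent polynomial: `∑ ρ (c i) * τ ^ i`. -/
noncomputable def ev (ρ : A →ₐ[k] S) (τ : Sˣ) (c : ℤ →₀ A) : S :=
  c.sum fun i a => ρ a * ((τ ^ i : Sˣ) : S)

/-- The product of skew Laurent polynomials. -/
noncomputable def conv (c c' : ℤ →₀ A) : ℤ →₀ A :=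
  c.sum fun i a => c'.sum fun j b => Finsupp.single (i + j) (a * (σ ^ i) b)

lemma ev_zero (ρ : A →ₐ[k] S) (τ : Sˣ) : ev ρ τ 0 = 0 := by simp [ev]

lemma ev_add (ρ : A →ₐ[k] S) (τ : Sˣ) (c c' : ℤ →₀ A) :
    ev ρ τ (c + c') = ev ρ τ c + ev ρ τ c' := by
  rw [ev, Finsupp.sum_add_index']
  · rfl
  · intro i; simp
  · intro i a b; rw [map_add, add_mul]

lemma ev_single (ρ : A →ₐ[k] S) (τ : Sˣ) (i : ℤ) (a : A) :
    ev ρ τ (Finsupp.single i a) = ρ a * ((τ ^ i : Sˣ) : S) := by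
  rw [ev, Finsupp.sum_single_index]; simp

/-- `ev` as an additive map. -/
noncomputable def evHom (ρ : A →ₐ[k] S) (τ : Sˣ) : (ℤ →₀ A) →+ S where
  toFun := ev ρ τ
  map_zero' := ev_zero ρ τ
  map_add' := ev_add ρ τ

variable {σ}

lemma zpow_comm {ρ : A →ₐ[k] S} {τ : Sˣ} (h : ∀ a, (τ : S) * ρ a = ρ (σ a) * τ) (i : ℤ) (a : A) :
    ((τ ^ i : Sˣ) : S) * ρ a = ρ ((σ ^ i) a) * ((τ ^ i : Sˣ) : S) := by
  induction i using Int.induction_on generalizing a with
  | zero => simp
  | succ n ih =>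
    rw [zpow_add_one, zpow_add_one, Units.val_mul, mul_assoc, h, ← mul_assoc, ih, mul_assoc]
    rfl
  | pred n ih =>
    have h' : ∀ a, ((τ⁻¹ : Sˣ) : S) * ρ a = ρ (σ.symm a) * ((τ⁻¹ : Sˣ) : S) := by
      intro a
      have h1 := h (σ.symm a)
      rw [σ.apply_symm_apply] at h1
      calc ((τ⁻¹ : Sˣ) : S) * ρ a = ((τ⁻¹ : Sˣ) : S) * (ρ a * τ) * ((τ⁻¹ : Sˣ) : S) := by
            rw [mul_assoc, mul_assoc, Units.mul_inv, mul_one]
        _ = _ := by rw [← h1, ← mul_assoc, Units.inv_mul, one_mul]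
    rw [zpow_sub_one, zpow_sub_one, Units.val_mul, mul_assoc, h', ← mul_assoc, ih, mul_assoc]
    rfl

lemma ev_conv {ρ : A →ₐ[k] S} {τ : Sˣ} (h : ∀ a, (τ : S) * ρ a = ρ (σ a) * τ) (c c' : ℤ →₀ A) :
    ev ρ τ (conv σ c c') = ev ρ τ c * ev ρ τ c' := by
  have e : ev ρ τ (conv σ c c') = c.sum fun i a => c'.sum fun j b =>
      ev ρ τ (Finsupp.single (i + j) (a * (σ ^ i) b)) := by
    change evHom ρ τ (conv σ c c') = _
    rw [conv, Finsupp.sum, map_sum]
    refine Finset.sum_congr rfl fun i _ => ?_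
    rw [Finsupp.sum, map_sum]
    rfl
  rw [e]
  simp only [ev_single]
  rw [ev, Finsupp.sum, Finsupp.sum, Finset.sum_mul]
  refine Finset.sum_congr rfl fun i _ => ?_
  rw [ev, Finsupp.sum, Finsupp.sum, Finset.mul_sum]
  refine Finset.sum_congr rfl fun j _ => ?_
  rw [map_mul, zpow_add, Units.val_mul]
  calc _ = ρ (c i) * (ρ ((σ ^ i) (c' j)) * ((τ ^ i : Sˣ) : S)) * ((τ ^ j : Sˣ) : S) := by
        simp only [mul_assoc]
    _ = _ := by rw [← zpow_comm h]; simp only [mul_assoc]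

end Skew

section PolyMatrix

open Polynomial

lemma exists_ne_zero_det {K : Type*} [Field K] [Infinite K] {ι : Type*} [Fintype ι]
    [DecidableEq ι] (P : Matrix ι ι K[X]) (h : (P.map (eval 0)).det ≠ 0) :
    ∃ ε : K, ε ≠ 0 ∧ (P.map (eval ε)).det ≠ 0 := by
  have hdet : ∀ ε : K, (P.det).eval ε = (P.map (eval ε)).det := by
    intro ε
    have := RingHom.map_det (evalRingHom ε) P
    simpa [RingHom.mapMatrix_apply] using this
  have hne : (X * P.det : K[X]) ≠ 0 := by
    refine mul_ne_zero X_ne_zero ?_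
    rintro h0
    rw [← hdet, h0] at h
    simp at h
  obtain ⟨ε, hε⟩ : ∃ ε : K, (X * P.det : K[X]).eval ε ≠ 0 := by
    by_contra hcon
    push Not at hcon
    exact hne (Polynomial.funext fun x => by simpa using hcon x)
  rw [eval_mul, eval_X, hdet] at hε
  exact ⟨ε, left_ne_zero_of_mul hε, right_ne_zero_of_mul hε⟩

end PolyMatrix

/-- A finite dimensional representation of the skew Laurent polynomial ring. -/
structure Rep (k : Type*) {A : Type*} [Field k] [CommRing A] [Algebra k A] (σ : A ≃ₐ[k] A)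
    (K : Type*) [Field K] [Algebra k K] where
  n : ℕ
  ρ : A →ₐ[k] Matrix (Fin (n + 1)) (Fin (n + 1)) K
  τ : (Matrix (Fin (n + 1)) (Fin (n + 1)) K)ˣ
  comm : ∀ a, (τ : Matrix (Fin (n + 1)) (Fin (n + 1)) K) * ρ a = ρ (σ a) * τ

section Orbit

variable {k A K : Type*} [Field k] [CommRing A] [Algebra k A] [Field K] [Algebra k K]
  (σ : A ≃ₐ[k] A) (χ : A →ₐ[k] K) (n : ℕ)

/-- The values of `a` on the orbit, as a diagonal matrix. -/
noncomputable def orb : A →ₐ[k] Matrix (Fin (n + 1)) (Fin (n + 1)) K :=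
  (Matrix.diagonalAlgHom k).comp (Pi.algHom k _ fun j : Fin (n + 1) =>
    χ.comp ((σ ^ (j : ℕ) : A ≃ₐ[k] A) : A →ₐ[k] A))

lemma orb_apply (a : A) :
    orb σ χ n a = Matrix.diagonal fun j : Fin (n + 1) => χ ((σ ^ (j : ℕ)) a) := rfl

/-- The cyclic permutation matrix. -/
noncomputable def cyc (K : Type*) [Field K] (n : ℕ) : Matrix (Fin (n + 1)) (Fin (n + 1)) K :=
  Equiv.Perm.permMatrix K (Equiv.addRight (1 : Fin (n + 1)))

lemma cyc_unit : IsUnit (cyc K n) := by
  rw [Matrix.isUnit_iff_isUnit_det, cyc, Matrix.det_permutation]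
  have := (Equiv.Perm.sign (Equiv.addRight (1 : Fin (n + 1)))).isUnit
  exact this.map (Int.castRingHom K)

variable {σ χ n}

lemma periodic (h : ∀ a, χ ((σ ^ (n + 1)) a) = χ a) (m : ℕ) (a : A) :
    χ ((σ ^ (m % (n + 1))) a) = χ ((σ ^ m) a) := by
  have h1 : ∀ (q : ℕ) (a : A), χ ((σ ^ ((n + 1) * q)) a) = χ a := by
    intro q
    induction q with
    | zero => intro a; simp
    | succ q ih =>
      intro a
      rw [Nat.mul_succ, pow_add, AlgEquiv.mul_apply, ih, h]
  conv_rhs => rw [← Nat.mod_add_div m (n + 1), add_comm, pow_add, AlgEquiv.mul_apply, h1]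

lemma cyc_comm (h : ∀ a, χ ((σ ^ (n + 1)) a) = χ a) (a : A) :
    cyc K n * orb σ χ n a = orb σ χ n (σ a) * cyc K n := by
  ext i j
  rw [orb_apply, orb_apply, Matrix.mul_diagonal, Matrix.diagonal_mul]
  rw [cyc, Equiv.Perm.permMatrix, PEquiv.toMatrix_apply]
  by_cases hij : j ∈ (Equiv.addRight (1 : Fin (n + 1))).toPEquiv i
  · rw [if_pos hij, one_mul, mul_one]
    have : j = i + 1 := by
      simpa [Equiv.toPEquiv_apply, eq_comm] using hij
    subst this
    rw [Fin.val_add, Fin.val_one', periodic h]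
    have e : (σ ^ ((i : ℕ))) (σ a) = (σ ^ ((i : ℕ) + 1)) a := by
      rw [pow_succ, AlgEquiv.mul_apply]
    rw [e, ← periodic h ((i : ℕ) + 1), ← periodic h ((i : ℕ) + 1 % (n + 1)), Nat.add_mod_mod]
  · rw [if_neg hij, zero_mul, mul_zero]

/-- The twisted cyclic permutation matrix. -/
noncomputable def tau (n : ℕ) {c : K} (hc : c ≠ 0) : (Matrix (Fin (n + 1)) (Fin (n + 1)) K)ˣ :=
  (Units.mk0 c hc).map (algebraMap K (Matrix (Fin (n + 1)) (Fin (n + 1)) K)).toMonoidHom *
    (cyc_unit n).unit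

/-- The representation of the skew Laurent polynomial ring on the functions on a finite orbit. -/
noncomputable def orbRep (h : ∀ a, χ ((σ ^ (n + 1)) a) = χ a) {c : K} (hc : c ≠ 0) :
    Rep k σ K where
  n := n
  ρ := orb σ χ n
  τ := tau n hc
  comm := fun a => by
    have h1 := cyc_comm h a
    simp only [tau, Units.val_mul, IsUnit.unit_spec]
    change algebraMap K _ c * cyc K n * _ = _ * (algebraMap K _ c * cyc K n)
    rw [mul_assoc, h1, ← mul_assoc, Algebra.commutes, mul_assoc]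

lemma tau_zpow {c : K} (hc : c ≠ 0) (i : ℤ) :
    ((tau n hc ^ i : (Matrix (Fin (n + 1)) (Fin (n + 1)) K)ˣ) :
      Matrix (Fin (n + 1)) (Fin (n + 1)) K) =
    c ^ i • (((cyc_unit (K := K) n).unit ^ i : (Matrix (Fin (n + 1)) (Fin (n + 1)) K)ˣ) :
      Matrix (Fin (n + 1)) (Fin (n + 1)) K) := by
  have hcomm : Commute ((Units.mk0 c hc).map
      (algebraMap K (Matrix (Fin (n + 1)) (Fin (n + 1)) K)).toMonoidHom)
      (cyc_unit (K := K) n).unit := by
    apply Units.ext
    exact Algebra.commutes c _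
  rw [tau, hcomm.mul_zpow, Units.val_mul, ← map_zpow, Algebra.smul_def]
  congr 1
  change algebraMap K _ (((Units.mk0 c hc) ^ i : Kˣ) : K) = _
  rw [Units.val_zpow_eq_zpow_val]
  rfl

/-- For every skew Laurent polynomial whose leading coefficient does not vanish on the orbit there
is a twist of the representation in which it is invertible. -/
lemma exists_unit [Infinite K] (h : ∀ a, χ ((σ ^ (n + 1)) a) = χ a) (s : ℤ →₀ A) (top : ℤ)
    (htop : ∀ i ∈ s.support, i ≤ top) (hne : ∀ i : ℕ, χ ((σ ^ i) (s top)) ≠ 0) :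
    ∃ r : Rep k σ K, IsUnit (ev r.ρ r.τ s) := by
  classical
  let P0 := (cyc_unit (K := K) n).unit
  let Pm : Matrix (Fin (n + 1)) (Fin (n + 1)) (Polynomial K) :=
    ∑ i ∈ s.support, (Polynomial.X ^ (top - i).toNat : Polynomial K) •
      (orb σ χ n (s i) * ((P0 ^ i : (Matrix (Fin (n + 1)) (Fin (n + 1)) K)ˣ) :
        Matrix (Fin (n + 1)) (Fin (n + 1)) K)).map Polynomial.C
  have hPm : ∀ ε : K, Pm.map (Polynomial.eval ε) =
      ∑ i ∈ s.support, ε ^ (top - i).toNat •
      (orb σ χ n (s i) * ((P0 ^ i : (Matrix (Fin (n + 1)) (Fin (n + 1)) K)ˣ) :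
        Matrix (Fin (n + 1)) (Fin (n + 1)) K)) := by
    intro ε
    ext a b
    simp only [Pm, Matrix.map_apply, Matrix.sum_apply, Matrix.smul_apply, Polynomial.eval_finsetSum,
      smul_eq_mul, Polynomial.eval_mul, Polynomial.eval_pow, Polynomial.eval_X, Polynomial.eval_C]
  have htopmem : top ∈ s.support := by
    rw [Finsupp.mem_support_iff]
    intro h0
    apply hne 0
    simp [h0]
  have h0 : (Pm.map (Polynomial.eval 0)).det ≠ 0 := by
    rw [hPm, Finset.sum_eq_single top]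
    · rw [sub_self, Int.toNat_zero, pow_zero, one_smul, Matrix.det_mul]
      refine mul_ne_zero ?_ ?_
      · rw [orb_apply, Matrix.det_diagonal]
        exact Finset.prod_ne_zero_iff.2 fun j _ => hne j
      · exact ((Matrix.isUnit_iff_isUnit_det _).1 (P0 ^ top).isUnit).ne_zero
    · intro i hi hne'
      have : 0 < (top - i).toNat := by
        have := htop i hi
        omega
      rw [zero_pow this.ne', zero_smul]
    · intro h; exact absurd htopmem h
  obtain ⟨ε, hε, hdet⟩ := exists_ne_zero_det Pm h0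
  refine ⟨orbRep h (inv_ne_zero hε), ?_⟩
  change IsUnit (ev (orb σ χ n) (tau n (inv_ne_zero hε)) s)
  have e : ev (orb σ χ n) (tau n (inv_ne_zero hε)) s =
      ((ε⁻¹) ^ top) • Pm.map (Polynomial.eval ε) := by
    rw [hPm, Finset.smul_sum, ev, Finsupp.sum]
    refine Finset.sum_congr rfl fun i hi => ?_
    rw [tau_zpow, smul_smul, mul_smul_comm]
    congr 1
    have h1 : ε ^ (top - i).toNat = ε ^ (top - i) := by
      rw [← zpow_natCast, Int.toNat_of_nonneg]
      have := htop i hi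
      omega
    rw [h1, inv_zpow, inv_zpow, ← zpow_neg, ← zpow_neg, ← zpow_add₀ hε]
    congr 1
    ring
  rw [e, Matrix.isUnit_iff_isUnit_det, Matrix.det_smul, isUnit_iff_ne_zero]
  exact mul_ne_zero (pow_ne_zero _ (zpow_ne_zero _ (inv_ne_zero hε))) hdet

end Orbit

end Run7.h710
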