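import Pool.Agent.Run7.h710.Frob

set_option autoImplicit false

namespace Run7.h710

open MvPolynomial

/-- Every element is fixed by a power of the Frobenius map. -/
def FrobFixed (p : ℕ) (k : Type*) [Field k] : Prop := ∀ x : k, ∃ n, 0 < n ∧ x ^ p ^ n = x

lemma pow_fix {p : ℕ} {k : Type*} [Field k] {x : k} {n : ℕ} (h : x ^ p ^ n = x) (m : ℕ) :
    x ^ p ^ (n * m) = x := by
  induction m with
  | zero => simp
  | succ m ih => rw [Nat.mul_succ, pow_add, pow_mul, ih, h]

lemma FrobFixed.finset {p : ℕ} {k : Type*} [Field k] (hk : FrobFixed p k) (T : Finset k) :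
    ∃ n, 0 < n ∧ ∀ x ∈ T, x ^ p ^ n = x := by
  classical
  induction T using Finset.induction_on with
  | empty => exact ⟨1, one_pos, by simp⟩
  | insert a T _ ih =>
    obtain ⟨n, hn, h⟩ := ih
    obtain ⟨m, hm, h'⟩ := hk a
    refine ⟨n * m, Nat.mul_pos hn hm, ?_⟩
    intro x hx
    rcases Finset.mem_insert.1 hx with rfl | hx
    · rw [mul_comm]; exact pow_fix h' n
    · exact pow_fix (h x hx) m

section

variable {k : Type*} [Field k] {p : ℕ} [hp : Fact p.Prime] [CharP k p] {d : ℕ}

/-- The Frobenius map on the coefficients. -/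
noncomputable def Phi (k : Type*) [Field k] (p : ℕ) [Fact p.Prime] [CharP k p] (d e : ℕ) :
    MvPolynomial (Fin d) k →+* MvPolynomial (Fin d) k :=
  MvPolynomial.map (iterateFrobenius k p e)

lemma Phi_eq_self {e : ℕ} {a : MvPolynomial (Fin d) k}
    (h : ∀ m ∈ a.support, (coeff m a) ^ p ^ e = coeff m a) : Phi k p d e a = a := by
  ext m
  rw [Phi, coeff_map, iterateFrobenius_def]
  by_cases hm : m ∈ a.support
  · exact h m hm
  · rw [notMem_support_iff] at hm
    rw [hm, zero_pow (pow_ne_zero _ hp.out.ne_zero)]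

lemma pow_eq_bind (e : ℕ) (a : MvPolynomial (Fin d) k) :
    a ^ p ^ e = aeval (fun i => (X i : MvPolynomial (Fin d) k) ^ p ^ e) (Phi k p d e a) := by
  have : iterateFrobenius (MvPolynomial (Fin d) k) p e =
      ((aeval (fun i => (X i : MvPolynomial (Fin d) k) ^ p ^ e) :
        MvPolynomial (Fin d) k →ₐ[k] MvPolynomial (Fin d) k) :
        MvPolynomial (Fin d) k →+* MvPolynomial (Fin d) k).comp (Phi k p d e) := by
    refine MvPolynomial.ringHom_ext (fun c => ?_) (fun i => ?_)
    · simp [Phi, iterateFrobenius_def]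
    · simp [Phi, iterateFrobenius_def]
  have h2 := RingHom.congr_fun this a
  rw [iterateFrobenius_def] at h2
  exact h2

variable (σ : MvPolynomial (Fin d) k ≃ₐ[k] MvPolynomial (Fin d) k)

lemma Phi_comm {e : ℕ} (h : ∀ i, Phi k p d e (σ (X i)) = σ (X i)) (a : MvPolynomial (Fin d) k) :
    Phi k p d e (σ a) = σ (Phi k p d e a) := by
  have : (Phi k p d e).comp (σ : MvPolynomial (Fin d) k →+* MvPolynomial (Fin d) k) =
      (σ : MvPolynomial (Fin d) k →+* MvPolynomial (Fin d) k).comp (Phi k p d e) := by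
    refine MvPolynomial.ringHom_ext (fun c => ?_) (fun i => ?_)
    · have h1 : ∀ c : k, σ (C c) = C c := fun c => σ.commutes c
      simp [Phi, h1]
    · simp only [RingHom.comp_apply, RingHom.coe_coe]
      rw [h i]
      simp [Phi]
  exact RingHom.congr_fun this a

/-- The ideal of the points on which `σ` agrees with a power of the Frobenius map. -/
noncomputable def J (σ : MvPolynomial (Fin d) k ≃ₐ[k] MvPolynomial (Fin d) k) (Q : ℕ) :
    Ideal (MvPolynomial (Fin d) k) :=
  Ideal.span (Set.range fun i => (X i : MvPolynomial (Fin d) k) ^ Q - σ (X i))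

lemma pow_sub_mem {e : ℕ} {a : MvPolynomial (Fin d) k} (ha : Phi k p d e a = a) :
    a ^ p ^ e - σ a ∈ J σ (p ^ e) := by
  rw [pow_eq_bind, ha]
  have h : ∀ b : MvPolynomial (Fin d) k,
      Ideal.Quotient.mk (J σ (p ^ e))
        (aeval (fun i => (X i : MvPolynomial (Fin d) k) ^ p ^ e) b) =
      Ideal.Quotient.mk (J σ (p ^ e)) (σ b) := by
    intro b
    have : (Ideal.Quotient.mkₐ k (J σ (p ^ e))).comp
          (aeval (fun i => (X i : MvPolynomial (Fin d) k) ^ p ^ e)) =
        (Ideal.Quotient.mkₐ k (J σ (p ^ e))).comp (σ : MvPolynomial (Fin d) k →ₐ[k] _) := by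
      refine MvPolynomial.algHom_ext fun i => ?_
      simp only [AlgHom.comp_apply, aeval_X, Ideal.Quotient.mkₐ_eq_mk, AlgHom.coe_coe]
      rw [Ideal.Quotient.mk_eq_mk_iff_sub_mem]
      exact Ideal.subset_span ⟨i, rfl⟩
    exact AlgHom.congr_fun this b
  rw [← Ideal.Quotient.mk_eq_mk_iff_sub_mem]
  exact h a

lemma symm_mem {e : ℕ} (h : ∀ i, Phi k p d e (σ (X i)) = σ (X i)) {a : MvPolynomial (Fin d) k}
    (ha : a ∈ J σ (p ^ e)) : σ.symm a ∈ J σ (p ^ e) := by
  have : J σ (p ^ e) ≤ (J σ (p ^ e)).comap (σ.symm : MvPolynomial (Fin d) k →+* _) := by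
    conv_lhs => rw [J]
    rw [Ideal.span_le]
    rintro _ ⟨i, rfl⟩
    simp only [SetLike.mem_coe, Ideal.mem_comap]
    have h1 : Phi k p d e (σ.symm (X i)) = σ.symm (X i) := by
      apply σ.injective
      rw [← Phi_comm σ h, σ.apply_symm_apply]
      simp [Phi]
    have h2 := pow_sub_mem σ h1
    rw [σ.apply_symm_apply] at h2
    simpa using h2
  exact this ha

lemma mem_of_pow_mem {e : ℕ} (h : ∀ i, Phi k p d e (σ (X i)) = σ (X i))
    {b : MvPolynomial (Fin d) k} (hb : Phi k p d e b = b) {r : ℕ}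
    (hr : b ^ (p ^ e) ^ r ∈ J σ (p ^ e)) : b ∈ J σ (p ^ e) := by
  induction r generalizing b with
  | zero => simpa using hr
  | succ r ih =>
    have h1 : Phi k p d e (σ b) = σ b := by rw [Phi_comm σ h, hb]
    have h2 : (σ b) ^ (p ^ e) ^ r ∈ J σ (p ^ e) := by
      have h3 := pow_sub_mem σ hb
      have h4 : (b ^ p ^ e) ^ (p ^ e) ^ r - (σ b) ^ (p ^ e) ^ r ∈ J σ (p ^ e) := by
        have := sub_dvd_pow_sub_pow (b ^ p ^ e) (σ b) ((p ^ e) ^ r)
        exact Ideal.mem_of_dvd _ this h3
      rw [← pow_mul, ← pow_succ'] at h4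
      have := sub_mem hr h4
      simpa using this
    have h5 := symm_mem σ h (ih h1 h2)
    simpa using h5

end

/-- **Specialisation.** Let `σ` be an automorphism of a polynomial algebra over an algebraic
extension `k` of the prime field with `p` elements. For every nonzero polynomial `b` there is a
point with a finite orbit under `σ`, on which `b` does not vanish. -/
theorem exists_spec {k : Type*} [Field k] {p : ℕ} [hp : Fact p.Prime] [CharP k p] {d : ℕ}
    (hk : FrobFixed p k) (K : Type*) [Field K] [IsAlgClosed K] [Algebra k K]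
    (hK : FrobFixed p K) (σ : MvPolynomial (Fin d) k ≃ₐ[k] MvPolynomial (Fin d) k)
    {b : MvPolynomial (Fin d) k} (hb : b ≠ 0) :
    ∃ (χ : MvPolynomial (Fin d) k →ₐ[k] K) (N : ℕ), 0 < N ∧
      (∀ a, χ ((σ ^ N) a) = χ a) ∧ ∀ i : ℕ, χ ((σ ^ i) b) ≠ 0 := by
  classical
  -- the coefficients
  set T : Finset k := (Finset.univ.biUnion fun i : Fin d =>
    (σ (X i)).support.image fun m => coeff m (σ (X i))) ∪ b.support.image fun m => coeff m b with hT
  obtain ⟨n, hn, hfix⟩ := hk.finset T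
  obtain ⟨B, hB⟩ : ∃ B : ℕ, (∀ i, (σ (X i)).totalDegree < B) ∧ b.totalDegree < B := by
    refine ⟨(∑ i, (σ (X i)).totalDegree) + b.totalDegree + 1, fun i => ?_, by omega⟩
    have : (σ (X i)).totalDegree ≤ ∑ i, (σ (X i)).totalDegree :=
      Finset.single_le_sum (f := fun i => (σ (X i)).totalDegree) (fun _ _ => Nat.zero_le _)
        (Finset.mem_univ i)
    omega
  set e : ℕ := n * B with he
  have hBe : B ≤ p ^ e := by
    have h1 : e < p ^ e := Nat.lt_pow_self hp.out.one_lt
    have h2 : B ≤ e := Nat.le_mul_of_pos_left B hn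
    omega
  have hfix' : ∀ x ∈ T, x ^ p ^ e = x := fun x hx => pow_fix (hfix x hx) B
  have hs : ∀ i, Phi k p d e (σ (X i)) = σ (X i) := fun i => Phi_eq_self fun m hm =>
    hfix' _ (Finset.mem_union_left _ (Finset.mem_biUnion.2
      ⟨i, Finset.mem_univ _, Finset.mem_image.2 ⟨m, hm, rfl⟩⟩))
  have hbΦ : Phi k p d e b = b := Phi_eq_self fun m hm =>
    hfix' _ (Finset.mem_union_right _ (Finset.mem_image.2 ⟨m, hm, rfl⟩))
  have hQ : 0 < p ^ e := pow_pos hp.out.pos _
  have hbJ : b ∉ J σ (p ^ e) := by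
    refine not_mem_span hQ (fun i => F_mono hBe ?_) (F_mono hBe ?_) hb
    · exact mem_F_of_totalDegree (hB.1 i)
    · exact mem_F_of_totalDegree hB.2
  have hbpow : ∀ M : ℕ, b ^ M ∉ J σ (p ^ e) := by
    intro M hM
    apply hbJ
    by_cases he0 : 1 < p ^ e
    · refine mem_of_pow_mem σ hs hbΦ (r := M) ?_
      have hle : M ≤ (p ^ e) ^ M := (Nat.lt_pow_self he0).le
      obtain ⟨c, hc⟩ := Nat.exists_eq_add_of_le hle
      rw [hc, pow_add]
      exact Ideal.mul_mem_right _ _ hM
    · exfalso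
      have : 0 < e := by
        rw [he]
        exact Nat.mul_pos hn (by have := hB.2; omega)
      exact he0 (Nat.one_lt_pow this.ne' hp.out.one_lt)
  -- the point
  let R := MvPolynomial (Fin d) k ⧸ J σ (p ^ e)
  let β : R := Ideal.Quotient.mk _ b
  have hβ : ¬ IsNilpotent β := by
    rintro ⟨M, hM⟩
    apply hbpow M
    rw [← Ideal.Quotient.eq_zero_iff_mem, map_pow]
    exact hM
  let R' := Localization.Away β
  have : Nontrivial R' := by
    by_contra hcon
    rw [not_nontrivial_iff_subsingleton] at hcon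
    have h1 : algebraMap R R' 1 = algebraMap R R' 0 := Subsingleton.elim _ _
    obtain ⟨⟨_, M, rfl⟩, hc⟩ := (IsLocalization.eq_iff_exists (Submonoid.powers β) R').1 h1
    apply hβ
    exact ⟨M, by simpa using hc⟩
  have : Algebra.FiniteType k R' := by
    have : Algebra.FiniteType R R' :=
      IsLocalization.finiteType_of_monoid_fg (Submonoid.powers β) R'
    have : Algebra.FiniteType k R := inferInstance
    exact Algebra.FiniteType.trans (S := R) inferInstance inferInstance
  obtain ⟨𝔪, h𝔪⟩ := Ideal.exists_maximal R'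
  letI : Field (R' ⧸ 𝔪) := Ideal.Quotient.field 𝔪
  have : Algebra.FiniteType k (R' ⧸ 𝔪) := inferInstance
  have : Module.Finite k (R' ⧸ 𝔪) := finite_of_finite_type_of_isJacobsonRing k (R' ⧸ 𝔪)
  let θ : (R' ⧸ 𝔪) →ₐ[k] K := IsAlgClosed.lift
  let χ : MvPolynomial (Fin d) k →ₐ[k] K :=
    θ.comp ((Ideal.Quotient.mkₐ k 𝔪).comp ((IsScalarTower.toAlgHom k R R').comp
      (Ideal.Quotient.mkₐ k (J σ (p ^ e)))))
  have hχJ : ∀ a ∈ J σ (p ^ e), χ a = 0 := by
    intro a ha
    have : Ideal.Quotient.mkₐ k (J σ (p ^ e)) a = 0 := by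
      rw [Ideal.Quotient.mkₐ_eq_mk, Ideal.Quotient.eq_zero_iff_mem]
      exact ha
    simp only [χ, AlgHom.comp_apply, this, map_zero]
  have hχb : χ b ≠ 0 := by
    have hu : IsUnit (algebraMap R R' β) := IsLocalization.Away.algebraMap_isUnit β
    have h1 : IsUnit (χ b) := by
      have := (hu.map (Ideal.Quotient.mkₐ k 𝔪)).map θ
      exact this
    exact h1.ne_zero
  have hχ : ∀ a, Phi k p d e a = a → χ (σ a) = χ a ^ p ^ e := by
    intro a ha
    have := hχJ _ (pow_sub_mem σ ha)
    rw [map_sub, map_pow, sub_eq_zero] at this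
    exact this.symm
  have hΦpow : ∀ (i : ℕ) a, Phi k p d e a = a → Phi k p d e ((σ ^ i) a) = (σ ^ i) a := by
    intro i
    induction i with
    | zero => intro a ha; simpa using ha
    | succ i ih =>
      intro a ha
      rw [pow_succ, AlgEquiv.mul_apply]
      exact ih _ (by rw [Phi_comm σ hs, ha])
  have hχpow : ∀ (i : ℕ) a, Phi k p d e a = a → χ ((σ ^ i) a) = χ a ^ p ^ (e * i) := by
    intro i
    induction i with
    | zero => intro a _; simp
    | succ i ih =>
      intro a ha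
      rw [pow_succ', AlgEquiv.mul_apply, hχ _ (hΦpow i a ha), ih a ha, ← pow_mul, ← pow_add,
        Nat.mul_succ]
  obtain ⟨N, hN, hNfix⟩ := hK.finset (Finset.univ.image fun i : Fin d => χ (X i))
  refine ⟨χ, N, hN, ?_, ?_⟩
  · have : χ.comp ((σ ^ N : MvPolynomial (Fin d) k ≃ₐ[k] _) : MvPolynomial (Fin d) k →ₐ[k] _)
        = χ := by
      refine MvPolynomial.algHom_ext fun i => ?_
      have h1 := hχpow N (X i) (by simp [Phi])
      rw [AlgHom.comp_apply]
      refine h1.trans ?_
      rw [mul_comm]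
      exact pow_fix (hNfix _ (Finset.mem_image.2 ⟨i, Finset.mem_univ _, rfl⟩)) e
    intro a
    exact AlgHom.congr_fun this a
  · intro i
    rw [hχpow i b hbΦ]
    exact pow_ne_zero _ hχb

end Run7.h710
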